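import Pool.Agent.W539.Cube.Defs
import Pool.Agent.W539.Cube.NoExt
import Pool.Agent.W539.Cube.Aut

/-!
# A cocompact `CAT(0)` cube complex on which the identity does not extend

The complex is `X = K × ℝ`, where `K` is the tree of squares in which every vertex lies in exactly
two squares and `ℝ` is cubed by the unit intervals; it is the universal cover of a finite complex
(two squares with corresponding vertices identified, times a circle).  A geodesic of `K` running
through vertices may cross a square along a side (`ℓ^p` length `1` for every `p`) or along a
diagonal (`ℓ^p` length `2 ^ (1 / p)`); choosing longer and longer blocks of sides and of diagonals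
one obtains a geodesic ray of `K` along which the ratio of the `ℓ^p` length and the `ℓ^r` length
does not converge.  The ray of `X` above it of slope one with respect to `d_p` converges in the
compactification of `d_p`, but its slope with respect to `d_r` oscillates.
-/

namespace Pool.Agent.Results.MP_67b01c_gt.IdentityNoExtension

open Set Pool.Agent.W539.CubeDefs

/-- **Full answer to the question.**  There is a cube complex, all of whose maximal cubes have
dimension `3`, which is `CAT(0)` for its piecewise Euclidean metric, on which a group acts
cocompactly by automorphisms of the cube complex and for which the following hold: for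
`1 < p < ∞` the piecewise `ℓ^p` metric is a metric, it has a convex geodesic bicombing, and any two
of its geodesic bicombings agree; and for all `p ≠ r` in `(1, ∞)`, and for every base point, the
identity does not extend to a continuous map (a fortiori not to a homeomorphism) from the
compactification of the piecewise `ℓ^p` metric to the compactification of the piecewise `ℓ^r`
metric. -/
theorem result : ∃ (I : Type) (C : Set (Cube I)),
    (∀ Q ∈ C, Q.dirs.card = 3) ∧ IsConn C ∧ IsCAT0 (pdist C 2) ∧
    (∃ (G : Type) (_ : Group G) (_ : MulAction G (Pt C)), IsCocompactAction C G) ∧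
    (∀ p : ℝ, 1 < p → IsMetric (pdist C p) ∧ (∃ σ, IsConvexBicombing (pdist C p) σ) ∧
      ∀ σ τ, IsBicombing (pdist C p) σ → IsBicombing (pdist C p) τ →
        ∀ x y, ∀ t ∈ Icc (0 : ℝ) 1, σ x y t = τ x y t) ∧
    ∀ p r : ℝ, 1 < p → 1 < r → p ≠ r → ∀ σ τ, IsConvexBicombing (pdist C p) σ →
      IsConvexBicombing (pdist C r) τ → ∀ o : Pt C,
        ¬ IdentityExtends (pdist C p) (pdist C r) σ τ o := by
  refine ⟨_, Pool.Agent.W539.Cube.XC, ?_, Pool.Agent.W539.Cube.isConn_XC,
    Pool.Agent.W539.Cube.isCAT0_XC,
    ⟨Pool.Agent.W539.Cube.autGroup, inferInstance, inferInstance,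
      Pool.Agent.W539.Cube.cocompact⟩, fun p hp => ⟨(Pool.Agent.W539.Cube.isBus_X hp).metric,
        (Pool.Agent.W539.Cube.isBus_X hp).exists_bicombing, fun σ τ hσ hτ x y t ht =>
          (Pool.Agent.W539.Cube.isBus_X hp).unique (hσ x y) (hτ x y) ht⟩,
    fun p r hp hr hpr σ τ hσ hτ o =>
      Pool.Agent.W539.Cube.no_extension hp hr hpr hσ.bicombing hτ.bicombing o⟩
  rintro Q ⟨b, m, rfl⟩
  exact Pool.Agent.W539.Cube.card_cubeAt b m

end Pool.Agent.Results.MP_67b01c_gt.IdentityNoExtension
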